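import Pool.Agent.H95.FC.Targets

/-!
# Row ARHO of the board `fmx_modules`: the value of a character on a line
-/

set_option autoImplicit false

open MeasureTheory Set Filter NumberField
open scoped Real nonZeroDivisors Matrix MatrixGroups

namespace Pool.Agent.H27.FC

open Pool.Agent.H31.CN Pool.Agent.H89.FM Pool.Agent.H61.FM Pool.Agent.H89.FC Pool.Agent.H95.FC

theorem ty_mul {K : Type} [Field K] [NumberField K] (σ : K →+* ℂ) (a b : 𝓞 K) :
    ty K σ (a * b) = ty K σ a * ty K σ b := by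
  unfold ty
  rw [show ((a * b : 𝓞 K) : K) = (a : K) * (b : K) from rfl, map_mul, map_mul, mul_div_mul_comm]

theorem ty_nat {K : Type} [Field K] [NumberField K] (σ : K →+* ℂ) (n : ℕ) (hn : 1 ≤ n) :
    ty K σ (n : 𝓞 K) = 1 := by
  unfold ty
  have h : σ (((n : 𝓞 K) : 𝓞 K) : K) = (n : ℂ) := by
    rw [show (((n : 𝓞 K) : 𝓞 K) : K) = (n : K) from by simp, map_natCast]
  rw [h, Complex.conj_natCast, div_self]
  exact_mod_cast (by omega : n ≠ 0)

theorem an_ne (hFRA : T_FRA) {D : ℕ} {Q : QF} (hD : 0 < D) (hQ : Q ∈ FD D) {v : ℤ × ℤ}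
    (hv : v ≠ 0) : an (zx Q) (zy Q) v ≠ 0 := by
  have h := (hFRA 1 Q (1, 0) (0, 1) le_rfl (by simp [det]) hQ.1
    (by rw [hQ.2]; exact_mod_cast hD)).2.2.1 v hv
  intro h0
  rw [h0, norm_zero] at h
  exact zero_ne_one h

/-- (RHO) the value of a character on a line. -/
theorem pf_RHO (hPAR : Pool.Agent.H95.FC.T_PAR) (hANT : Pool.Agent.H95.FC.T_ANT)
    (hFRA : Pool.Agent.H95.FC.T_FRA) : Pool.Agent.H95.FC.T_RHO := by
  intro K _ _ σ D f m ψ I α β Q b hD hQ hOB hVB hR v v' hv hv' hU hU' hdet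
  obtain ⟨a, n, hn, hRa, hRn, hlv, hid⟩ :=
    hPAR K σ f I α β Q b hR.pos hOB hVB v v' hv hv' hU hU' hdet
  obtain ⟨hty, hty1⟩ := hANT K σ D I α β Q hD hQ hOB
  have hα : ty K σ α ≠ 0 := by
    intro h0
    rw [h0, norm_zero] at hty1
    exact zero_ne_one hty1
  have hv1 := an_ne hFRA hD hQ hv
  have hv2 := an_ne hFRA hD hQ hv'
  have e1 : ty K σ a * an (zx Q) (zy Q) v = an (zx Q) (zy Q) v' := by
    have h := congrArg (ty K σ) hlv
    rw [ty_mul, ty_mul, ty_nat σ n hn, one_mul, hty, hty] at h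
    apply mul_left_cancel₀ hα
    linear_combination h
  have ha : ty K σ a ≠ 0 := by
    intro h0
    rw [h0, zero_mul] at e1
    exact hv2 e1.symm
  have e2 : ψ (b v' : Ideal (𝓞 K)) = ty K σ a ^ m * ψ (b v : Ideal (𝓞 K)) := by
    have h := congrArg ψ hid
    rw [hR.mul, hR.mul, hR.prc a hRa, hR.prc _ hRn, ty_nat σ n hn, one_zpow, one_mul] at h
    exact h.symm
  unfold rr
  rw [e2, ← e1, mul_zpow, zpow_neg (ty K σ a)]
  have h3 : ty K σ a ^ m ≠ 0 := zpow_ne_zero m ha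
  field_simp

end Pool.Agent.H27.FC
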