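import Pool.Agent.H95.FC.Targets

/-!
# Row ASUM of the board `fmx_modules`: sums over the lines and sums over all vectors
-/

set_option autoImplicit false

open MeasureTheory Set Filter NumberField
open scoped Real nonZeroDivisors Matrix MatrixGroups

namespace Pool.Agent.H27.FC

open Pool.Agent.H31.CN Pool.Agent.H89.FM Pool.Agent.H61.FM Pool.Agent.H89.FC Pool.Agent.H95.FC

open Classical in
/-- (SUM) sums over the lines and sums over all vectors. -/
theorem pf_SUM (hNCU : Pool.Agent.H95.FC.T_NCU) (hFRA : Pool.Agent.H95.FC.T_FRA)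
    (hPRN : Pool.Agent.H95.CF.T_PRN) : Pool.Agent.H95.FC.T_SUM := by
  intro K _ _ σ D f m ψ I α β Q b T W hD hQ hOB hVB hLT hR L h a ha
  have h1 : HasSum (fun u : ℤ × ℤ => ∑ V ∈ T, rr m ψ b Q V *
      (if u ∈ L ∧ (f : ℤ) ∣ det V u ∧ u ≠ 0 then
        an (zx Q) (zy Q) u ^ m * h (val Q u) else 0))
      (∑ V ∈ T, rr m ψ b Q V * a V) :=
    hasSum_sum fun V hV => (ha V hV).mul_left _
  have h2 : (∑ V ∈ T, ψ (b V) * an (zx Q) (zy Q) V ^ (-m) * a V) =
      ∑ V ∈ T, rr m ψ b Q V * a V := rfl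
  rw [h2]
  have h3 : (fun u : ℤ × ℤ => ∑ V ∈ T, rr m ψ b Q V *
      (if u ∈ L ∧ (f : ℤ) ∣ det V u ∧ u ≠ 0 then
        an (zx Q) (zy Q) u ^ m * h (val Q u) else 0)) =
      fun u : ℤ × ℤ => if u ∈ L ∧ u ≠ 0 then ψ (b u) * h (val Q u) else 0 := by
    funext u
    by_cases hu : u ∈ L ∧ u ≠ 0
    · rw [if_pos hu]
      have h4 : ∀ V ∈ T, rr m ψ b Q V * (if u ∈ L ∧ (f : ℤ) ∣ det V u ∧ u ≠ 0 then
          an (zx Q) (zy Q) u ^ m * h (val Q u) else 0) =
          (if (f : ℤ) ∣ det V u then rr m ψ b Q V else 0) *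
            (an (zx Q) (zy Q) u ^ m * h (val Q u)) := by
        intro V _
        by_cases hd : (f : ℤ) ∣ det V u
        · rw [if_pos ⟨hu.1, hd, hu.2⟩, if_pos hd]
        · rw [if_neg (fun h => hd h.2.1), if_neg hd, mul_zero, zero_mul]
      rw [Finset.sum_congr rfl h4, ← Finset.sum_mul]
      have h5 : ∑ V ∈ T, (if (f : ℤ) ∣ det V u then rr m ψ b Q V else 0) =
          if Uv f Q u then rr m ψ b Q u else 0 :=
        hNCU K σ D f m ψ I α β Q b T W hD hQ hOB hVB hLT hR u hu.2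
      rw [h5]
      by_cases hU : Uv f Q u
      · rw [if_pos hU]
        have h6 : an (zx Q) (zy Q) u ≠ 0 := by
          have h := (hFRA 1 Q (1, 0) (0, 1) le_rfl (by simp [det]) hQ.1
            (by rw [hQ.2]; exact_mod_cast hD)).2.2.1 u hu.2
          intro h0
          rw [h0, norm_zero] at h
          exact zero_ne_one h
        have h7 : an (zx Q) (zy Q) u ^ m ≠ 0 := zpow_ne_zero m h6
        unfold rr
        rw [zpow_neg]
        field_simp
      · rw [if_neg hU, zero_mul, hR.van, zero_mul]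
        intro hP
        apply hU
        have hb : ((b u : Ideal (𝓞 K))) ≠ ⊥ := nonZeroDivisors.coe_ne_zero (b u)
        have h8 := (hPRN K f (b u) hb).1 hP
        unfold Uv
        rw [← hVB.nrm u hu.2]
        exact_mod_cast (Nat.isCoprime_iff_coprime.2 h8)
    · rw [if_neg hu]
      apply Finset.sum_eq_zero
      intro V _
      rw [if_neg (fun h => hu ⟨h.1, h.2.2⟩), mul_zero]
  rw [h3] at h1
  exact h1

end Pool.Agent.H27.FC
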